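import Mathlib

/-!
Project EN (helper20), piece DIFF, part 1: concatenation of curves.
-/

set_option autoImplicit false

namespace Pool.Agent.W2helper71.EN

open Set Metric Filter Topology

theorem glue {F : Type*} [NormedAddCommGroup F] [NormedSpace ℝ F] {a b a' b' : ℝ → F}
    (ha : ∀ t ∈ Icc (0 : ℝ) (1 / 2), HasDerivWithinAt a (a' t) (Icc 0 (1 / 2)) t)
    (hb : ∀ t ∈ Icc (1 / 2 : ℝ) 1, HasDerivWithinAt b (b' t) (Icc (1 / 2) 1) t)
    (hac : ContinuousOn a' (Icc 0 (1 / 2))) (hbc : ContinuousOn b' (Icc (1 / 2) 1))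
    (h0 : a (1 / 2) = b (1 / 2)) (h1 : a' (1 / 2) = b' (1 / 2)) :
    (∀ t ∈ Icc (0 : ℝ) 1, HasDerivWithinAt (fun t => if t ≤ 1 / 2 then a t else b t)
      (if t ≤ 1 / 2 then a' t else b' t) (Icc 0 1) t) ∧
      ContinuousOn (fun t => if t ≤ 1 / 2 then a' t else b' t) (Icc 0 1) := by
  set c : ℝ → F := fun t => if t ≤ 1 / 2 then a t else b t with hc
  set c' : ℝ → F := fun t => if t ≤ 1 / 2 then a' t else b' t with hc'
  have e1 : ∀ t ∈ Icc (0 : ℝ) (1 / 2), c t = a t := fun t ht => if_pos ht.2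
  have e1' : ∀ t ∈ Icc (0 : ℝ) (1 / 2), c' t = a' t := fun t ht => if_pos ht.2
  have e2 : ∀ t ∈ Icc (1 / 2 : ℝ) 1, c t = b t := by
    intro t ht
    rcases eq_or_lt_of_le ht.1 with h | h
    · rw [← h, e1 _ ⟨by norm_num, le_rfl⟩, h0]
    · exact if_neg (not_le.2 h)
  have e2' : ∀ t ∈ Icc (1 / 2 : ℝ) 1, c' t = b' t := by
    intro t ht
    rcases eq_or_lt_of_le ht.1 with h | h
    · rw [← h, e1' _ ⟨by norm_num, le_rfl⟩, h1]
    · exact if_neg (not_le.2 h)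
  have d1 : ∀ t ∈ Icc (0 : ℝ) (1 / 2), HasDerivWithinAt c (c' t) (Icc 0 (1 / 2)) t := by
    intro t ht
    rw [e1' t ht]
    exact (ha t ht).congr e1 (e1 t ht)
  have d2 : ∀ t ∈ Icc (1 / 2 : ℝ) 1, HasDerivWithinAt c (c' t) (Icc (1 / 2) 1) t := by
    intro t ht
    rw [e2' t ht]
    exact (hb t ht).congr e2 (e2 t ht)
  have hU : Icc (0 : ℝ) (1 / 2) ∪ Icc (1 / 2) 1 = Icc 0 1 :=
    Icc_union_Icc_eq_Icc (by norm_num) (by norm_num)
  refine ⟨fun t ht => ?_, ?_⟩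
  · change HasDerivWithinAt c (c' t) (Icc 0 1) t
    rcases lt_trichotomy t (1 / 2) with h | h | h
    · refine (d1 t ⟨ht.1, h.le⟩).mono_of_mem_nhdsWithin ?_
      exact mem_nhdsWithin.2 ⟨Iio (1 / 2), isOpen_Iio, h, fun z hz => ⟨hz.2.1, le_of_lt hz.1⟩⟩
    · rw [← hU]
      exact (d1 t ⟨ht.1, h.le⟩).union (d2 t ⟨h.ge, ht.2⟩)
    · refine (d2 t ⟨h.le, ht.2⟩).mono_of_mem_nhdsWithin ?_
      exact mem_nhdsWithin.2 ⟨Ioi (1 / 2), isOpen_Ioi, h, fun z hz => ⟨le_of_lt hz.1, hz.2.2⟩⟩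
  · rw [← hU]
    exact (hac.congr e1').union_of_isClosed (hbc.congr e2') isClosed_Icc isClosed_Icc

/-- the first half of the change of the parameter -/
noncomputable def ta (s t : ℝ) : ℝ := s * ((2 * t) ^ 2 * (3 - 2 * (2 * t)))

/-- its derivative -/
noncomputable def ta' (s t : ℝ) : ℝ := s * (12 * (2 * t) * (1 - 2 * t))

/-- the second half of the change of the parameter -/
noncomputable def tb (s t : ℝ) : ℝ := s + (1 - s) * ((2 * t - 1) ^ 2 * (3 - 2 * (2 * t - 1)))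

/-- its derivative -/
noncomputable def tb' (s t : ℝ) : ℝ := (1 - s) * (12 * (2 * t - 1) * (2 - 2 * t))

theorem hasDerivAt_ta (s t : ℝ) : HasDerivAt (ta s) (ta' s t) t := by
  have h : HasDerivAt (fun t : ℝ => s * ((2 * t) ^ 2 * (3 - 2 * (2 * t))))
      (s * ((2 * (2 * t) ^ 1 * 2) * (3 - 2 * (2 * t)) + (2 * t) ^ 2 * (0 - 2 * 2))) t := by
    have h1 : HasDerivAt (fun t : ℝ => 2 * t) 2 t := by
      simpa using (hasDerivAt_id t).const_mul 2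
    have h2 := h1.pow 2
    have h3 := (hasDerivAt_const t (3 : ℝ)).sub (h1.const_mul 2)
    have h4 := (h2.mul h3).const_mul s
    refine h4.congr_deriv ?_
    norm_num
  refine h.congr_deriv ?_
  unfold ta'
  ring

theorem hasDerivAt_tb (s t : ℝ) : HasDerivAt (tb s) (tb' s t) t := by
  have h1 : HasDerivAt (fun t : ℝ => 2 * t - 1) 2 t := by
    simpa using ((hasDerivAt_id t).const_mul 2).sub_const 1
  have h2 := h1.pow 2
  have h3 := (hasDerivAt_const t (3 : ℝ)).sub (h1.const_mul 2)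
  have h4 := ((h2.mul h3).const_mul (1 - s)).const_add s
  have h : HasDerivAt (tb s) ((1 - s) * ((2 * (2 * t - 1) ^ 1 * 2) * (3 - 2 * (2 * t - 1)) +
      (2 * t - 1) ^ 2 * (0 - 2 * 2))) t := by
    refine h4.congr_deriv ?_
    norm_num
  refine h.congr_deriv ?_
  unfold tb'
  ring

theorem phi_mem {x : ℝ} (h0 : 0 ≤ x) (h1 : x ≤ 1) : x ^ 2 * (3 - 2 * x) ∈ Icc (0 : ℝ) 1 := by
  constructor
  · exact mul_nonneg (sq_nonneg _) (by linarith)
  · nlinarith [mul_nonneg (sq_nonneg (1 - x)) (by linarith : (0 : ℝ) ≤ 1 + 2 * x)]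

theorem ta_mem {s t : ℝ} (hs : s ∈ Icc (0 : ℝ) 1) (ht : t ∈ Icc (0 : ℝ) (1 / 2)) :
    ta s t ∈ Icc (0 : ℝ) 1 := by
  have h := phi_mem (x := 2 * t) (by linarith [ht.1]) (by linarith [ht.2])
  unfold ta
  exact ⟨mul_nonneg hs.1 h.1, mul_le_one₀ hs.2 h.1 h.2⟩

theorem tb_mem {s t : ℝ} (hs : s ∈ Icc (0 : ℝ) 1) (ht : t ∈ Icc (1 / 2 : ℝ) 1) :
    tb s t ∈ Icc (0 : ℝ) 1 := by
  have h := phi_mem (x := 2 * t - 1) (by linarith [ht.1]) (by linarith [ht.2])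
  unfold tb
  have h1 : 0 ≤ 1 - s := by linarith [hs.2]
  constructor
  · linarith [mul_nonneg h1 h.1, hs.1]
  · nlinarith [mul_le_mul_of_nonneg_left h.2 h1]

theorem ta'_nonneg {s t : ℝ} (hs : 0 ≤ s) (ht : t ∈ Icc (0 : ℝ) (1 / 2)) : 0 ≤ ta' s t := by
  unfold ta'
  have h1 : 0 ≤ 2 * t := by linarith [ht.1]
  have h2 : 0 ≤ 1 - 2 * t := by linarith [ht.2]
  positivity

theorem tb'_nonneg {s t : ℝ} (hs : s ≤ 1) (ht : t ∈ Icc (1 / 2 : ℝ) 1) : 0 ≤ tb' s t := by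
  unfold tb'
  have h1 : 0 ≤ 2 * t - 1 := by linarith [ht.1]
  have h2 : 0 ≤ 2 - 2 * t := by linarith [ht.2]
  have h3 : 0 ≤ 1 - s := by linarith
  positivity

end Pool.Agent.W2helper71.EN
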