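import Pool.Agent.W2helper20.BC.Stm2
import Pool.Agent.W2helper71.EN.Glue

/-!
Project EN (helper20), piece DIFF: a smooth boundary fixing map `ψ` with `ψ^* g' = g` is a
diffeomorphism of the closed ball.
-/

set_option autoImplicit false

namespace Pool.Agent.W2helper71.EN

open Set Metric Filter Topology MeasureTheory
open scoped ContDiff InnerProductSpace
open Pool.Agent.Q176.BR Pool.Agent.W2helper20.BC

variable {n : ℕ} {g g' : Fld n} {ψ : E n → E n}

theorem equivDeriv (hg : IsMetric g)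
    (hi : ∀ x ∈ M n, ∀ v w, g' (ψ x) (fderiv ℝ ψ x v) (fderiv ℝ ψ x w) = g x v w) {x : E n}
    (hx : x ∈ M n) : ∃ e : E n ≃L[ℝ] E n, (e : E n →L[ℝ] E n) = fderiv ℝ ψ x := by
  have hinj : Function.Injective (fderiv ℝ ψ x : E n →ₗ[ℝ] E n) := by
    rw [← LinearMap.ker_eq_bot, LinearMap.ker_eq_bot']
    intro v hv
    have hv' : fderiv ℝ ψ x v = 0 := hv
    have h := hi x hx v v
    rw [hv'] at h
    simp only [map_zero] at h
    exact hg.eq_zero h.symm
  refine ⟨(LinearEquiv.ofInjectiveEndo _ hinj).toContinuousLinearEquiv, ?_⟩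
  ext z
  rfl

theorem strict (hψ : IsFix ψ) (x : E n) : HasStrictFDerivAt ψ (fderiv ℝ ψ x) x :=
  (hψ.smooth.contDiffAt).hasStrictFDerivAt (by simp)

theorem map_nhds (hg : IsMetric g) (hψ : IsFix ψ)
    (hi : ∀ x ∈ M n, ∀ v w, g' (ψ x) (fderiv ℝ ψ x v) (fderiv ℝ ψ x w) = g x v w) {x : E n}
    (hx : x ∈ M n) : map ψ (𝓝 x) = 𝓝 (ψ x) := by
  obtain ⟨e, he⟩ := equivDeriv hg hi hx
  have h := strict hψ x
  rw [← he] at h
  exact h.map_nhds_eq_of_equiv

theorem maps_ball (hg : IsMetric g) (hψ : IsFix ψ)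
    (hi : ∀ x ∈ M n, ∀ v w, g' (ψ x) (fderiv ℝ ψ x v) (fderiv ℝ ψ x w) = g x v w) {x : E n}
    (hx : x ∈ ball (0 : E n) 1) : ψ x ∈ ball (0 : E n) 1 := by
  have h1 : ψ '' ball (0 : E n) 1 ∈ 𝓝 (ψ x) := by
    rw [← map_nhds hg hψ hi (ball_subset_closedBall hx)]
    exact image_mem_map (isOpen_ball.mem_nhds hx)
  have h2 : ψ '' ball (0 : E n) 1 ⊆ M n := by
    rintro _ ⟨y, hy, rfl⟩
    exact hψ.maps (ball_subset_closedBall hy)
  have h3 : ψ x ∈ interior (M n) := mem_interior_iff_mem_nhds.2 (mem_of_superset h1 h2)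
  rwa [interior_closedBall (0 : E n) one_ne_zero] at h3

/-- reparametrised image of a geodesic -/
theorem hasDeriv_comp (hψ : IsFix ψ) {γ u : ℝ → E n} (h : IsGeod g γ u) {τ τ' : ℝ → ℝ}
    {I : Set ℝ} (hτ : ∀ t, HasDerivAt τ (τ' t) t) (hm : ∀ t ∈ I, τ t ∈ Icc (0 : ℝ) 1) :
    ∀ t ∈ I, HasDerivWithinAt (fun t => ψ (γ (τ t)))
      (fderiv ℝ ψ (γ (τ t)) (τ' t • u (τ t))) I t := by
  intro t ht
  have h1 : HasDerivWithinAt (γ ∘ τ) (τ' t • u (τ t)) I t :=
    (h.vel (τ t) (hm t ht)).scomp t (hτ t).hasDerivWithinAt hm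
  have h2 : HasFDerivAt ψ (fderiv ℝ ψ ((γ ∘ τ) t)) ((γ ∘ τ) t) :=
    (hψ.smooth.differentiable (by simp) _).hasFDerivAt
  exact h2.comp_hasDerivWithinAt t h1

theorem cont_comp (hψ : IsFix ψ) {γ u : ℝ → E n} (h : IsGeod g γ u) {τ τ' : ℝ → ℝ}
    {I : Set ℝ} (hτ : ∀ t, HasDerivAt τ (τ' t) t) (hτ' : Continuous τ')
    (hm : ∀ t ∈ I, τ t ∈ Icc (0 : ℝ) 1) :
    ContinuousOn (fun t => fderiv ℝ ψ (γ (τ t)) (τ' t • u (τ t))) I := by
  have hc : Continuous τ := continuous_iff_continuousAt.2 fun t => (hτ t).continuousAt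
  have h1 : ContinuousOn (fun t => γ (τ t)) I := h.cont.comp hc.continuousOn hm
  have h2 : ContinuousOn (fun t => u (τ t)) I := h.contU.comp hc.continuousOn hm
  have h3 : Continuous (fderiv ℝ ψ) := hψ.smooth.continuous_fderiv (by simp)
  exact (h3.comp_continuousOn h1).clm_apply (hτ'.continuousOn.smul h2)

theorem speed_comp (hg : IsMetric g)
    (hi : ∀ x ∈ M n, ∀ v w, g' (ψ x) (fderiv ℝ ψ x v) (fderiv ℝ ψ x w) = g x v w)
    {γ u : ℝ → E n} (h : IsGeod g γ u) {r k : ℝ} (hr : r ∈ Icc (0 : ℝ) 1) (hk : 0 ≤ k) :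
    √(g' (ψ (γ r)) (fderiv ℝ ψ (γ r) (k • u r)) (fderiv ℝ ψ (γ r) (k • u r))) =
      k * √(g (γ 0) (u 0) (u 0)) := by
  rw [hi _ (h.mem r hr), form_smul, h.speed hg r hr, Real.sqrt_mul (sq_nonneg _),
    Real.sqrt_sq hk]

/-- There are no two points of a maximal geodesic with the same image. -/
theorem chord_inj (hg : IsSimple g) (hg' : IsMetric g') (hψ : IsFix ψ)
    (hd : ∀ p ∈ bdM n, ∀ q ∈ bdM n, rdist g p q ≤ rdist g' p q)
    (hi : ∀ x ∈ M n, ∀ v w, g' (ψ x) (fderiv ℝ ψ x v) (fderiv ℝ ψ x w) = g x v w)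
    {γ u : ℝ → E n} (h : Chord g γ u) {s s₂ : ℝ} (hs : s ∈ Icc (0 : ℝ) 1)
    (hs₂ : s₂ ∈ Icc (0 : ℝ) 1) (hlt : s < s₂) : ψ (γ s) ≠ ψ (γ s₂) := by
  intro heq
  have m0 : (0 : ℝ) ∈ Icc (0 : ℝ) 1 := ⟨le_rfl, zero_le_one⟩
  have m1 : (1 : ℝ) ∈ Icc (0 : ℝ) 1 := ⟨zero_le_one, le_rfl⟩
  set κ := √(g (γ 0) (u 0) (u 0)) with hκ
  have hκ0 : 0 < κ := Real.sqrt_pos.2 (hg.pos _ _ h.ne)
  have hma : ∀ t ∈ Icc (0 : ℝ) (1 / 2), ta s t ∈ Icc (0 : ℝ) 1 := fun t ht => ta_mem hs ht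
  have hmb : ∀ t ∈ Icc (1 / 2 : ℝ) 1, tb s₂ t ∈ Icc (0 : ℝ) 1 := fun t ht => tb_mem hs₂ ht
  have cta' : Continuous (ta' s) := by unfold ta'; fun_prop
  have ctb' : Continuous (tb' s₂) := by unfold tb'; fun_prop
  have ea : ta s (1 / 2) = s := by unfold ta; norm_num
  have ea' : ta' s (1 / 2) = 0 := by unfold ta'; norm_num
  have eb : tb s₂ (1 / 2) = s₂ := by unfold tb; norm_num
  have eb' : tb' s₂ (1 / 2) = 0 := by unfold tb'; norm_num
  have ea0 : ta s 0 = 0 := by unfold ta; norm_num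
  have eb1 : tb s₂ 1 = 1 := by unfold tb; norm_num
  obtain ⟨hder, hcont⟩ := glue (hasDeriv_comp hψ h.geod (hasDerivAt_ta s) hma)
    (hasDeriv_comp hψ h.geod (hasDerivAt_tb s₂) hmb)
    (cont_comp hψ h.geod (hasDerivAt_ta s) cta' hma)
    (cont_comp hψ h.geod (hasDerivAt_tb s₂) ctb' hmb)
    (by rw [ea, eb]; exact heq) (by rw [ea', eb', zero_smul, zero_smul, map_zero, map_zero])
  set c : ℝ → E n := fun t => if t ≤ 1 / 2 then ψ (γ (ta s t)) else ψ (γ (tb s₂ t)) with hc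
  set c' : ℝ → E n := fun t => if t ≤ 1 / 2 then fderiv ℝ ψ (γ (ta s t)) (ta' s t • u (ta s t))
    else fderiv ℝ ψ (γ (tb s₂ t)) (tb' s₂ t • u (tb s₂ t)) with hc'
  have hud := uniqueDiffOn_Icc (zero_lt_one (α := ℝ))
  have hdw : ∀ t ∈ Icc (0 : ℝ) 1, derivWithin c (Icc 0 1) t = c' t := fun t ht =>
    (hder t ht).derivWithin (hud t ht)
  have hC1 : ContDiffOn ℝ 1 c (Icc 0 1) := by
    rw [contDiffOn_one_iff_derivWithin hud]
    exact ⟨fun t ht => (hder t ht).differentiableWithinAt, hcont.congr hdw⟩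
  have hcM : ∀ t ∈ Icc (0 : ℝ) 1, c t ∈ M n := by
    intro t ht
    by_cases h2 : t ≤ 1 / 2
    · simp only [hc, if_pos h2]
      exact hψ.maps (h.geod.mem _ (hma t ⟨ht.1, h2⟩))
    · simp only [hc, if_neg h2]
      exact hψ.maps (h.geod.mem _ (hmb t ⟨(not_le.1 h2).le, ht.2⟩))
  have hc0 : c 0 = γ 0 := by
    simp only [hc]
    rw [if_pos (by norm_num), ea0]
    exact hψ.fix _ (mem_sphere_zero_iff_norm.2 h.zero)
  have hc1 : c 1 = γ 1 := by
    simp only [hc]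
    rw [if_neg (by norm_num), eb1]
    exact hψ.fix _ (mem_sphere_zero_iff_norm.2 h.one)
  -- the length of `c`
  have hf1 : ∀ t ∈ Icc (0 : ℝ) (1 / 2), √(g' (c t) (derivWithin c (Icc 0 1) t)
      (derivWithin c (Icc 0 1) t)) = ta' s t * κ := by
    intro t ht
    rw [hdw t ⟨ht.1, by linarith [ht.2]⟩]
    simp only [hc, hc', if_pos ht.2]
    exact speed_comp hg.toIsMetric hi h.geod (hma t ht) (ta'_nonneg hs.1 ht)
  have hf2 : ∀ t ∈ Icc (1 / 2 : ℝ) 1, √(g' (c t) (derivWithin c (Icc 0 1) t)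
      (derivWithin c (Icc 0 1) t)) = tb' s₂ t * κ := by
    intro t ht
    rw [hdw t ⟨by linarith [ht.1], ht.2⟩]
    rcases eq_or_lt_of_le ht.1 with h2 | h2
    · rw [← h2]
      simp only [hc, hc', if_pos le_rfl, ea', eb', zero_smul, map_zero, Real.sqrt_zero, zero_mul]
    · simp only [hc, hc', if_neg (not_le.2 h2)]
      exact speed_comp hg.toIsMetric hi h.geod (hmb t ht) (tb'_nonneg hs₂.2 ht)
  have i1 : IntervalIntegrable (fun t => √(g' (c t) (derivWithin c (Icc 0 1) t)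
      (derivWithin c (Icc 0 1) t))) volume 0 (1 / 2) := by
    refine ContinuousOn.intervalIntegrable ?_
    rw [uIcc_of_le (by norm_num)]
    exact (cta'.mul continuous_const).continuousOn.congr hf1
  have i2 : IntervalIntegrable (fun t => √(g' (c t) (derivWithin c (Icc 0 1) t)
      (derivWithin c (Icc 0 1) t))) volume (1 / 2) 1 := by
    refine ContinuousOn.intervalIntegrable ?_
    rw [uIcc_of_le (by norm_num)]
    exact (ctb'.mul continuous_const).continuousOn.congr hf2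
  have hlen : len g' c = (s + (1 - s₂)) * κ := by
    unfold len
    rw [← intervalIntegral.integral_add_adjacent_intervals i1 i2]
    have j1 : ∫ t in (0 : ℝ)..(1 / 2), √(g' (c t) (derivWithin c (Icc 0 1) t)
        (derivWithin c (Icc 0 1) t)) = s * κ := by
      rw [intervalIntegral.integral_congr (g := fun t => ta' s t * κ) (by
        rw [uIcc_of_le (by norm_num : (0 : ℝ) ≤ 1 / 2)]
        exact hf1)]
      rw [intervalIntegral.integral_eq_sub_of_hasDerivAt (f := fun t => ta s t * κ)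
        (fun t _ => (hasDerivAt_ta s t).mul_const κ)
        ((cta'.mul continuous_const).intervalIntegrable _ _), ea, ea0]
      ring
    have j2 : ∫ t in (1 / 2 : ℝ)..1, √(g' (c t) (derivWithin c (Icc 0 1) t)
        (derivWithin c (Icc 0 1) t)) = (1 - s₂) * κ := by
      rw [intervalIntegral.integral_congr (g := fun t => tb' s₂ t * κ) (by
        rw [uIcc_of_le (by norm_num : (1 / 2 : ℝ) ≤ 1)]
        exact hf2)]
      rw [intervalIntegral.integral_eq_sub_of_hasDerivAt (f := fun t => tb s₂ t * κ)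
        (fun t _ => (hasDerivAt_tb s₂ t).mul_const κ)
        ((ctb'.mul continuous_const).intervalIntegrable _ _), eb, eb1]
      ring
    rw [j1, j2]
    ring
  have e1 : κ = rdist g (γ 0) (γ 1) := by
    rw [hg.rdist_eq (h.geod.mem 0 m0) (h.geod.mem 1 m1), h.geod.lg_eq hg m1, one_smul]
  have h3 : rdist g (γ 0) (γ 1) ≤ rdist g' (γ 0) (γ 1) :=
    hd _ (mem_sphere_zero_iff_norm.2 h.zero) _ (mem_sphere_zero_iff_norm.2 h.one)
  have h4 := rdist_le_len hg' hC1 hcM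
  rw [hc0, hc1, hlen] at h4
  have h5 : κ ≤ (s + (1 - s₂)) * κ := by
    calc κ = rdist g (γ 0) (γ 1) := e1
      _ ≤ _ := h3.trans h4
  nlinarith

/-- Piece DIFF. -/
theorem p_DIFF : P_DIFF := by
  intro h1 h2 n g g' ψ hn hg hg' hψ hd hi
  have hm := hg.toIsMetric
  have hball : ∀ x ∈ ball (0 : E n) 1, ψ x ∈ ball (0 : E n) 1 := fun x hx =>
    maps_ball hm hψ hi hx
  -- injectivity
  have hinjb : ∀ x ∈ ball (0 : E n) 1, ∀ y ∈ ball (0 : E n) 1, ψ x = ψ y → x = y := by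
    intro x hx y hy heq
    by_contra hxy
    have hxM : x ∈ M n := ball_subset_closedBall hx
    have hyM : y ∈ M n := ball_subset_closedBall hy
    have hv : lg g x y ≠ 0 := hg.lg_ne_zero hxM hyM hxy
    obtain ⟨γ, u, s, c, hγ, hz, ho, hu, hs, hc, hγs, hus⟩ := h2 n g hg x hx (lg g x y) hv
    obtain ⟨h3, h4⟩ := h1 n g hg γ u hγ hz ho hu s hs (1 / c)
    have e1 : (1 / c) • u s = lg g x y := by
      rw [hus, smul_smul, one_div, inv_mul_cancel₀ hc.ne', one_smul]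
    have h5 : (1 / c) • u s ∈ D g (γ s) := by
      rw [e1, hγs]
      exact ⟨y, hy, rfl⟩
    obtain ⟨h6, h7⟩ := h3.1 h5
    have h8 := (h4 h6 h7).1
    rw [e1, hγs, hg.ex_lg hxM hyM] at h8
    have hc' : 0 < 1 / c := by positivity
    refine chord_inj hg hg' hψ hd hi ⟨hγ, hz, ho, hu⟩ ⟨hs.1.le, hs.2.le⟩
      (s₂ := s + 1 / c) ⟨by linarith [hs.1], by linarith⟩ (by linarith) ?_
    rw [hγs, ← h8]
    exact heq
  have hcase : ∀ x ∈ M n, x ∈ ball (0 : E n) 1 ∨ x ∈ bdM n := by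
    intro x hx
    have h : ‖x‖ ≤ 1 := mem_closedBall_zero_iff.1 hx
    rcases lt_or_eq_of_le h with h | h
    · exact Or.inl (mem_ball_zero_iff.2 h)
    · exact Or.inr (mem_sphere_zero_iff_norm.2 h)
  have hdisj : ∀ x ∈ ball (0 : E n) 1, x ∉ bdM n := by
    intro x hx hx'
    rw [mem_ball_zero_iff] at hx
    rw [mem_sphere_zero_iff_norm] at hx'
    linarith
  have hinj : InjOn ψ (M n) := by
    intro x hx y hy heq
    rcases hcase x hx with hx1 | hx1 <;> rcases hcase y hy with hy1 | hy1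
    · exact hinjb x hx1 y hy1 heq
    · exfalso
      rw [hψ.fix y hy1] at heq
      exact hdisj _ (hball x hx1) (heq ▸ hy1)
    · exfalso
      rw [hψ.fix x hx1] at heq
      exact hdisj _ (hball y hy1) (heq ▸ hx1)
    · rwa [hψ.fix x hx1, hψ.fix y hy1] at heq
  have hcM : IsCompact (M n) := isCompact_closedBall 0 1
  have hcont : Continuous ψ := hψ.smooth.continuous
  -- surjectivity
  have hopen : IsOpen (ψ '' ball (0 : E n) 1) := by
    rw [isOpen_iff_mem_nhds]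
    rintro _ ⟨x, hx, rfl⟩
    rw [← map_nhds hm hψ hi (ball_subset_closedBall hx)]
    exact image_mem_map (isOpen_ball.mem_nhds hx)
  have hclosed : IsClosed (ψ '' M n) := (hcM.image hcont).isClosed
  have hsurjb : ball (0 : E n) 1 ⊆ ψ '' ball (0 : E n) 1 := by
    have hpre : IsPreconnected (ball (0 : E n) 1) := (convex_ball (0 : E n) 1).isPreconnected
    refine hpre.subset_left_of_subset_union hopen hclosed.isOpen_compl ?_ ?_ ?_
    · rw [Set.disjoint_left]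
      rintro _ ⟨x, hx, rfl⟩ h
      exact h ⟨x, ball_subset_closedBall hx, rfl⟩
    · intro y hy
      by_cases h : y ∈ ψ '' M n
      · obtain ⟨x, hx, rfl⟩ := h
        rcases hcase x hx with hx1 | hx1
        · exact Or.inl ⟨x, hx1, rfl⟩
        · exfalso
          rw [hψ.fix x hx1] at hy
          exact hdisj x hy hx1
      · exact Or.inr h
    · have h0 : (0 : E n) ∈ ball (0 : E n) 1 := mem_ball_self one_pos
      exact ⟨ψ 0, hball 0 h0, 0, h0, rfl⟩
  have hsurj : SurjOn ψ (M n) (M n) := by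
    intro y hy
    rcases hcase y hy with hy1 | hy1
    · obtain ⟨x, hx, hxy⟩ := hsurjb hy1
      exact ⟨x, ball_subset_closedBall hx, hxy⟩
    · exact ⟨y, hy, hψ.fix y hy1⟩
  have hbij : BijOn ψ (M n) (M n) := ⟨hψ.maps, hinj, hsurj⟩
  refine ⟨hbij, hψ.smooth.contDiffOn, Function.invFunOn ψ (M n), hbij.invOn_invFunOn, ?_⟩
  set G := Function.invFunOn ψ (M n) with hG
  have hinv : InvOn G ψ (M n) (M n) := hbij.invOn_invFunOn
  have hGM : ∀ y ∈ M n, G y ∈ M n := fun y hy => Function.invFunOn_mem (hsurj hy)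
  intro y hy
  set x := G y with hx
  have hxM : x ∈ M n := hGM y hy
  have hψx : ψ x = y := hinv.2 hy
  obtain ⟨e, he⟩ := equivDeriv hm hi hxM
  have hf' : HasFDerivAt ψ (e : E n →L[ℝ] E n) x := by
    rw [he]
    exact (hψ.smooth.differentiable (by simp) _).hasFDerivAt
  have hcd : ContDiffAt ℝ ∞ ψ x := hψ.smooth.contDiffAt
  have hloc := hcd.to_localInverse hf' (by simp)
  rw [hψx] at hloc
  have hleft : ∀ᶠ z in 𝓝 x, hcd.localInverse hf' (by simp) (ψ z) = z :=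
    (hcd.hasStrictFDerivAt' hf' (by simp)).eventually_left_inverse
  -- continuity of the inverse at `y`
  have hGc : Tendsto G (𝓝[M n] y) (𝓝 x) := by
    intro U hU
    obtain ⟨V, hVU, hV, hxV⟩ := _root_.mem_nhds_iff.1 hU
    have hK : IsCompact (M n \ V) := hcM.diff hV
    have hKc : IsClosed (ψ '' (M n \ V)) := (hK.image hcont).isClosed
    have hyK : y ∉ ψ '' (M n \ V) := by
      rintro ⟨z, hz, hzy⟩
      have : z = x := hinj hz.1 hxM (hzy.trans hψx.symm)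
      exact hz.2 (this ▸ hxV)
    have h1 : (ψ '' (M n \ V))ᶜ ∈ 𝓝[M n] y :=
      mem_nhdsWithin_of_mem_nhds (hKc.isOpen_compl.mem_nhds hyK)
    rw [Filter.mem_map]
    filter_upwards [h1, self_mem_nhdsWithin] with z hz hzM
    apply hVU
    by_contra hzV
    exact hz ⟨G z, ⟨hGM z hzM, hzV⟩, hinv.2 hzM⟩
  have hev : ∀ᶠ z in 𝓝[M n] y, G z = hcd.localInverse hf' (by simp) z := by
    filter_upwards [hGc.eventually hleft, self_mem_nhdsWithin] with z hz hzM
    rw [hinv.2 hzM] at hz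
    exact hz.symm
  refine hloc.contDiffWithinAt.congr_of_eventuallyEq hev ?_
  have := hleft.self_of_nhds
  rw [hψx] at this
  exact this.symm

end Pool.Agent.W2helper71.EN
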